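import Pool.Agent.Helper1.RG.Defs

/-!
# MP_c9c10f, project RG, row A4: the units `(5a + i)/(5a - i)`
-/

set_option autoImplicit false

open Complex
open scoped ComplexConjugate
open Pool.Agent.Helper1.RG

namespace Pool.Agent.Helper90.RG

/-- the Gaussian integers of norm prime to five are not divisible by `2 - i` -/
lemma not_dvd (a : ℤ) (c : ℤ) (hc : c = 1 ∨ c = -1) :
    ¬ ((⟨2, -1⟩ : GaussianInt) ∣ (⟨5 * a, c⟩ : GaussianInt)) := by
  rintro ⟨w, hw⟩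
  have h := congrArg Zsqrtd.norm hw
  rw [Zsqrtd.norm_mul] at h
  simp only [Zsqrtd.norm_def] at h
  have h2 : 25 * (a * a) + c * c = 5 * (w.re * w.re - -1 * w.im * w.im) := by
    linear_combination h
  have h3 : c * c = 1 := by rcases hc with rfl | rfl <;> norm_num
  omega

lemma den_ne (a : ℕ) (c : ℝ) (hc : c ≠ 0) : (5 * (a : ℂ) + (c : ℂ) * I) ≠ 0 := by
  intro h
  have := congrArg Complex.im h
  simp at this
  exact hc this

theorem st_A4 : ST_A4 := by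
  intro a
  have hm : (5 * (a : ℂ) - I) ≠ 0 := by
    have := den_ne a (-1) (by norm_num)
    simpa [sub_eq_add_neg] using this
  have hp : (5 * (a : ℂ) + I) ≠ 0 := by
    have := den_ne a 1 (by norm_num)
    simpa using this
  have hd : ((25 : ℂ) * (a : ℂ) ^ 2 + 1) ≠ 0 := by
    have h1 : ((25 : ℂ) * (a : ℂ) ^ 2 + 1) = (5 * (a : ℂ) + I) * (5 * (a : ℂ) - I) := by
      linear_combination Complex.I_sq
    rw [h1]
    exact mul_ne_zero hp hm
  refine ⟨⟨⟨(25 * (a : ℚ) ^ 2 - 1) / (25 * (a : ℚ) ^ 2 + 1), 10 * (a : ℚ) / (25 * (a : ℚ) ^ 2 + 1),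
    ?_⟩, ?_⟩, ⟨⟨5 * a, 1⟩, ⟨5 * a, -1⟩, not_dvd a (-1) (Or.inr rfl), ?_⟩,
    ⟨⟨5 * a, -1⟩, ⟨5 * a, 1⟩, not_dvd a 1 (Or.inl rfl), ?_⟩⟩
  · rw [wu]
    push_cast
    rw [div_eq_iff hm]
    rw [show ((25 * (a : ℂ) ^ 2 - 1) / (25 * (a : ℂ) ^ 2 + 1) +
      10 * (a : ℂ) / (25 * (a : ℂ) ^ 2 + 1) * I) * (5 * (a : ℂ) - I) =
      ((25 * (a : ℂ) ^ 2 - 1) + 10 * (a : ℂ) * I) * (5 * (a : ℂ) - I) /
        (25 * (a : ℂ) ^ 2 + 1) from by ring, eq_div_iff hd]
    linear_combination (10 * (a : ℂ)) * Complex.I_sq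
  · rw [wu, norm_div]
    have h1 : ‖5 * (a : ℂ) + I‖ = ‖5 * (a : ℂ) - I‖ := by
      have h2 : (5 * (a : ℂ) - I) = conj (5 * (a : ℂ) + I) := by
        rw [map_add, map_mul, map_ofNat, Complex.conj_natCast, Complex.conj_I, sub_eq_add_neg]
      rw [h2, Complex.norm_conj]
    rw [h1, div_self (norm_ne_zero_iff.2 hm)]
  · rw [wu, GaussianInt.toComplex_def, GaussianInt.toComplex_def]
    push_cast
    rw [div_mul_eq_mul_div, div_eq_iff hm]
    ring
  · rw [wu, inv_div, GaussianInt.toComplex_def, GaussianInt.toComplex_def]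
    push_cast
    rw [div_mul_eq_mul_div, div_eq_iff hp]
    ring

end Pool.Agent.Helper90.RG
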