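import Pool.Agent.Helper1.RG.Defs

/-!
# MP_c9c10f, project RG, row G0: outside `GG` the Fourier coefficients at Gaussian integers vanish
-/

set_option autoImplicit false

open MeasureTheory Complex
open scoped ComplexConjugate
open Pool.Agent.Helper1.RG

namespace Pool.Agent.Helper90.RG

lemma shift_apply (χ : Om) (u x : ℂ) : (χ.mulShift u) x = χ (u * x) := rfl

lemma shift_comm (χ : Om) (u v : ℂ) : (χ.mulShift u).mulShift v = (χ.mulShift v).mulShift u := by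
  ext x
  rw [shift_apply, shift_apply, shift_apply, shift_apply, ← mul_assoc, ← mul_assoc, mul_comm u v]

lemma meas_ev (x : ℂ) : Measurable (ev x) := by
  have h1 : Measurable (fun (χ : Om) (y : (Set.univ : Set ℂ)) => ev (y : ℂ) χ) :=
    comap_measurable _
  exact (measurable_pi_apply (⟨x, Set.mem_univ x⟩ : (Set.univ : Set ℂ))).comp h1

lemma QI_mul {x y : ℂ} (hx : x ∈ QI) (hy : y ∈ QI) : x * y ∈ QI := by
  obtain ⟨a, b, rfl⟩ := hx
  obtain ⟨c, d, rfl⟩ := hy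
  refine ⟨a * c - b * d, a * d + b * c, ?_⟩
  push_cast
  linear_combination ((b : ℂ) * d) * Complex.I_sq

lemma QI_conj {x : ℂ} (hx : x ∈ QI) : conj x ∈ QI := by
  obtain ⟨a, b, rfl⟩ := hx
  refine ⟨a, -b, ?_⟩
  rw [map_add, map_mul, map_ratCast, map_ratCast, Complex.conj_I]
  push_cast
  ring

lemma GG_shift {χ : Om} {u : ℂ} (hu : u ∈ QI) (h : χ ∈ GG) : χ.mulShift u ∈ GG := by
  obtain ⟨T, hT⟩ := h
  refine ⟨conj u * T, fun x hx => ?_⟩
  rw [shift_apply, hT _ (QI_mul hu hx), e, e]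
  congr 2
  rw [map_mul, Complex.conj_conj]
  ring

lemma GG_iff {χ : Om} {u : ℂ} (hu : u ∈ QU) : χ.mulShift u ∈ GG ↔ χ ∈ GG := by
  refine ⟨fun h => ?_, fun h => GG_shift hu.1 h⟩
  have h1 := GG_shift (QI_conj hu.1) h
  have h2 : (χ.mulShift u).mulShift (conj u) = χ := by
    ext x
    rw [shift_apply, shift_apply, ← mul_assoc, Complex.mul_conj, Complex.normSq_eq_norm_sq, hu.2]
    norm_num
  rwa [h2] at h1

lemma ZI_mul {x y : ℂ} (hx : x ∈ ZI) (hy : y ∈ ZI) : x * y ∈ ZI := by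
  obtain ⟨a, b, rfl⟩ := hx
  obtain ⟨c, d, rfl⟩ := hy
  refine ⟨a * c - b * d, a * d + b * c, ?_⟩
  push_cast
  linear_combination ((b : ℂ) * d) * Complex.I_sq

lemma ZI_conj {x : ℂ} (hx : x ∈ ZI) : conj x ∈ ZI := by
  obtain ⟨a, b, rfl⟩ := hx
  refine ⟨a, -b, ?_⟩
  rw [map_add, map_mul, map_intCast, map_intCast, Complex.conj_I]
  push_cast
  ring

lemma FF_of_shift {χ : Om} {y : ℂ} (hy : y ∈ ZI) (hy0 : y ≠ 0) (h : χ.mulShift y ∈ FF) :
    χ ∈ FF := by
  obtain ⟨m, hm, T, hT⟩ := h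
  obtain ⟨n, hn⟩ : ∃ n : ℕ, (n : ℂ) = y * conj y := by
    obtain ⟨a, b, rfl⟩ := hy
    refine ⟨(a ^ 2 + b ^ 2).toNat, ?_⟩
    have h1 : (((a ^ 2 + b ^ 2).toNat : ℤ)) = a ^ 2 + b ^ 2 := Int.toNat_of_nonneg (by positivity)
    have h2 : (((a ^ 2 + b ^ 2).toNat : ℕ) : ℂ) = (((a ^ 2 + b ^ 2).toNat : ℤ) : ℂ) := by
      push_cast
      rfl
    rw [h2, h1, map_add, map_mul, map_intCast, map_intCast, Complex.conj_I]
    push_cast
    linear_combination ((b : ℂ) ^ 2) * Complex.I_sq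
  have hc : conj y ≠ 0 := (map_ne_zero _).2 hy0
  have hn0 : n ≠ 0 := by
    rintro rfl
    rw [Nat.cast_zero] at hn
    exact mul_ne_zero hy0 hc hn.symm
  refine ⟨m * n, Nat.one_le_iff_ne_zero.2 (Nat.mul_ne_zero (by omega) hn0), T / conj y,
    fun z hz => ?_⟩
  obtain ⟨j, hj⟩ := hz
  have hz2 : conj y * z ∈ OP := by
    refine ⟨j, ?_⟩
    have h1 : gb ^ j * (conj y * z) = conj y * (gb ^ j * z) := by ring
    rw [h1]
    exact ZI_mul (ZI_conj hy) hj
  have h1 := hT _ hz2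
  have h2 : ((m * n : ℕ) : ℂ) * z = y * ((m : ℂ) * (conj y * z)) := by
    push_cast
    rw [hn]
    ring
  rw [h2, ← shift_apply, h1, e, e]
  congr 2
  rw [map_div₀, Complex.conj_conj]
  field_simp

theorem st_G0 (hMS : ST_MS) (hMF : ST_MF) (hQ2 : ST_Q2) (hQ3 : ST_Q3) (hMAIN : ST_MAIN) :
    ST_G0 := by
  intro P hP hI y hy hy0
  by_contra hne
  have hGm : MeasurableSet GG := hMF.2
  have hGc : MeasurableSet (GGᶜ : Set Om) := hGm.compl
  have hPG : P (GGᶜ : Set Om) ≠ 0 := fun h0 => hne (setIntegral_measure_zero _ h0)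
  have hQ : IsProbabilityMeasure (ProbabilityTheory.cond P (GGᶜ : Set Om)) :=
    ProbabilityTheory.cond_isProbabilityMeasure hPG
  set Q : Measure Om := ProbabilityTheory.cond P (GGᶜ : Set Om) with hQdef
  have hQe : Q = (P (GGᶜ : Set Om))⁻¹ • P.restrict (GGᶜ : Set Om) := rfl
  have hP' : IsProbabilityMeasure (Q.map (fun χ : Om => χ.mulShift y)) :=
    Measure.isProbabilityMeasure_map (hMS y).aemeasurable
  have hInvQ : ∀ u ∈ QU, Q.map (fun χ : Om => χ.mulShift u) = Q := by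
    intro u hu
    have h1 : (P.map (fun χ : Om => χ.mulShift u)).restrict (GGᶜ : Set Om) =
        (P.restrict ((fun χ : Om => χ.mulShift u) ⁻¹' (GGᶜ : Set Om))).map
          (fun χ : Om => χ.mulShift u) := Measure.restrict_map (hMS u) hGc
    have h2 : (fun χ : Om => χ.mulShift u) ⁻¹' (GGᶜ : Set Om) = GGᶜ := by
      ext χ
      simp only [Set.mem_preimage, Set.mem_compl_iff]
      rw [GG_iff hu]
    rw [h2, hI u hu.2] at h1
    rw [hQe, Measure.map_smul, ← h1]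
  have hInv' : Inv (Q.map (fun χ : Om => χ.mulShift y)) := by
    intro u hu
    rw [Measure.map_map (hMS u) (hMS y)]
    have h1 : (fun χ : Om => χ.mulShift u) ∘ (fun χ : Om => χ.mulShift y) =
        (fun χ : Om => χ.mulShift y) ∘ (fun χ : Om => χ.mulShift u) := by
      funext χ
      exact shift_comm χ y u
    rw [h1, ← Measure.map_map (hMS y) (hMS u), hInvQ u hu]
  have hint : (∫ χ, ev 1 χ ∂(Q.map (fun χ : Om => χ.mulShift y))) ≠ 0 := by
    rw [integral_map (hMS y).aemeasurable (meas_ev 1).aestronglyMeasurable]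
    have h1 : ∀ χ : Om, ev 1 (χ.mulShift y) = ev y χ := by
      intro χ
      rw [ev, ev, shift_apply, mul_one]
    simp_rw [h1]
    rw [hQe, integral_smul_measure]
    refine smul_ne_zero ?_ hne
    rw [ENNReal.toReal_ne_zero]
    exact ⟨ENNReal.inv_ne_zero.2 (measure_ne_top _ _), ENNReal.inv_ne_top.2 hPG⟩
  have hF := hMAIN _ hP' hInv' hint
  have hFm : MeasurableSet FF := by
    have h1 : FF = ⋃ (m : ℕ) (_ : 1 ≤ m), Fm m := by
      ext χ
      simp [FF]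
    rw [h1]
    exact MeasurableSet.iUnion fun m => MeasurableSet.iUnion fun hm => hMF.1 m hm
  apply hF
  rw [Measure.map_apply (hMS y) hFm, hQe]
  rw [Measure.smul_apply, smul_eq_mul, Measure.restrict_apply ((hMS y) hFm)]
  have hae : ∀ᵐ χ ∂P, χ ∈ FF → χ ∈ GG := by
    have h1 : ∀ᵐ χ ∂P, ∀ m : ℕ, 1 ≤ m → χ ∈ Fm m → ∀ q : ℕ, q.Prime → ∀ k : ℕ, ∃ T : ℂ, ∀ z ∈ OP,
        χ (1 / (q : ℂ) ^ k * (m * z)) = e T (m * z) := by
      rw [ae_all_iff]
      intro m
      by_cases hm : 1 ≤ m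
      · filter_upwards [hQ2 P hP hI m hm] with χ hχ _ using hχ
      · exact Filter.Eventually.of_forall fun χ h => absurd h hm
    filter_upwards [h1] with χ hχ hF
    obtain ⟨m, hm, hmF⟩ := hF
    exact hQ3 χ m hm hmF (hχ m hm hmF)
  have h0 : P ((fun χ : Om => χ.mulShift y) ⁻¹' FF ∩ GGᶜ) = 0 := by
    refine measure_mono_null ?_ (ae_iff.1 hae)
    rintro χ ⟨h1, h2⟩
    simp only [Set.mem_ofPred_eq, Classical.not_imp]
    exact ⟨FF_of_shift hy hy0 h1, h2⟩
  rw [h0, mul_zero]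

end Pool.Agent.Helper90.RG
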